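import Mathlib

/-!
# Uniform multipliers for the sums of `S_n^{(r)}`

Two telescoping identities:
* `2 ∑_{k<n} ∑_j C(k,j)² C(2j,j) (2j+1) (δ(j+1) - δ(j)) = ∑_i C(n,i)² C(2i,i) (3i-2n) δ(i)`,
* `∑_{k<n} ∑_j C(k,j)² C(2j,j) β(j) (2k+1-j) = ∑_j (j+1) C(n,j+1)² C(2j,j) β(j)`,
valid for arbitrary functions `δ`, `β`.
-/

set_option autoImplicit false

namespace Pool.Agent.Results.MP_e2f147_nt.UniformMultipliers

open Finset

/-- `S_n^{(r)} = ∑_{k=0}^n C(n,k)² C(2k,k) (2k+1)^r`. -/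
def S (r n : ℕ) : ℤ :=
  ∑ k ∈ range (n + 1), (n.choose k : ℤ) ^ 2 * ((2 * k).choose k : ℤ) * (2 * (k : ℤ) + 1) ^ r

/-- `A_r(n) = ∑_{k=0}^{n-1} S_k^{(2r-1)}`. -/
def A (r n : ℕ) : ℤ := ∑ k ∈ range n, S (2 * r - 1) k

/-- `B_r(n) = ∑_{k=0}^{n-1} k S_k^{(r)}`. -/
def B (r n : ℕ) : ℤ := ∑ k ∈ range n, (k : ℤ) * S r k

lemma cb_succ (j : ℕ) : ((j : ℤ) + 1) * ((2 * (j + 1)).choose (j + 1) : ℤ)
    = 2 * (2 * (j : ℤ) + 1) * ((2 * j).choose j : ℤ) := by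
  have h := Nat.succ_mul_centralBinom_succ j
  simp only [Nat.centralBinom] at h
  exact_mod_cast h

lemma ch_rel (n j : ℕ) : ((j : ℤ) + 1) * (n.choose (j + 1) : ℤ) = ((n : ℤ) - j) * (n.choose j : ℤ) := by
  rcases le_or_gt j n with h | h
  · have h1 := Nat.choose_succ_right_eq n j
    have h2 : ((n - j : ℕ) : ℤ) = (n : ℤ) - j := by push_cast [h]; ring
    have h3 : (n.choose (j + 1) : ℤ) * ((j : ℤ) + 1) = (n.choose j : ℤ) * ((n - j : ℕ) : ℤ) := by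
      exact_mod_cast h1
    rw [h2] at h3
    linarith
  · rw [Nat.choose_eq_zero_of_lt h, Nat.choose_eq_zero_of_lt (by omega)]
    simp

/-- the pointwise identity behind the first telescoping -/
lemma point (n j : ℕ) :
    (3 * ((j : ℤ) + 1) - 2 * (n + 1)) * ((n + 1).choose (j + 1) : ℤ) ^ 2
      - (3 * ((j : ℤ) + 1) - 2 * n) * (n.choose (j + 1) : ℤ) ^ 2
    = ((j : ℤ) + 1) * (n.choose j : ℤ) ^ 2 - 2 * (2 * ((j : ℤ) + 1) + 1) * (n.choose (j + 1) : ℤ) ^ 2 := by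
  have h := ch_rel n j
  rw [Nat.choose_succ_succ]
  push_cast
  generalize (n.choose j : ℤ) = a at *
  generalize (n.choose (j + 1) : ℤ) = b at *
  linear_combination (2 * a + 4 * b) * h

/-- the inner sum -/
def W (f : ℕ → ℤ) (n : ℕ) : ℤ :=
  ∑ k ∈ range (n + 1), (n.choose k : ℤ) ^ 2 * ((2 * k).choose k : ℤ) * f k

lemma W_ext (f : ℕ → ℤ) (n : ℕ) :
    W f n = ∑ k ∈ range (n + 2), (n.choose k : ℤ) ^ 2 * ((2 * k).choose k : ℤ) * f k := by
  rw [sum_range_succ, Nat.choose_eq_zero_of_lt (Nat.lt_succ_self n)]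
  simp [W]

theorem tele1 (δ : ℕ → ℤ) (n : ℕ) :
    2 * ∑ k ∈ range n, W (fun j => (2 * (j : ℤ) + 1) * (δ (j + 1) - δ j)) k
      = W (fun i => (3 * (i : ℤ) - 2 * n) * δ i) n := by
  induction n with
  | zero => simp [W]
  | succ n ih =>
    rw [sum_range_succ, mul_add, ih]
    rw [W_ext (fun i => (3 * (i : ℤ) - 2 * n) * δ i) n]
    have h1 : 2 * W (fun j => (2 * (j : ℤ) + 1) * (δ (j + 1) - δ j)) n
        = ∑ j ∈ range (n + 1), (n.choose j : ℤ) ^ 2 * (((j : ℤ) + 1) * ((2 * (j + 1)).choose (j + 1) : ℤ))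
            * δ (j + 1)
          - ∑ j ∈ range (n + 2), 2 * (n.choose j : ℤ) ^ 2 * ((2 * j).choose j : ℤ) * (2 * (j : ℤ) + 1) * δ j := by
      rw [sum_range_succ (fun j => 2 * (n.choose j : ℤ) ^ 2 * ((2 * j).choose j : ℤ) * (2 * (j : ℤ) + 1) * δ j)
        (n + 1), Nat.choose_eq_zero_of_lt (Nat.lt_succ_self n)]
      unfold W
      rw [mul_sum]
      simp only [Nat.cast_zero, ne_eq, OfNat.ofNat_ne_zero, not_false_eq_true, zero_pow, mul_zero,
        zero_mul, add_zero]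
      rw [← sum_sub_distrib]
      apply sum_congr rfl
      intro j _
      rw [cb_succ]
      ring
    rw [h1]
    rw [sum_range_succ' (fun j => 2 * (n.choose j : ℤ) ^ 2 * ((2 * j).choose j : ℤ) * (2 * (j : ℤ) + 1) * δ j)
      (n + 1)]
    rw [sum_range_succ' (fun k => (n.choose k : ℤ) ^ 2 * ((2 * k).choose k : ℤ) * ((3 * (k : ℤ) - 2 * n) * δ k))
      (n + 1)]
    unfold W
    rw [sum_range_succ' (fun k => ((n + 1).choose k : ℤ) ^ 2 * ((2 * k).choose k : ℤ) *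
      ((3 * (k : ℤ) - 2 * ((n + 1 : ℕ) : ℤ)) * δ k)) (n + 1)]
    have h2 : ∀ j ∈ range (n + 1),
        ((n + 1).choose (j + 1) : ℤ) ^ 2 * ((2 * (j + 1)).choose (j + 1) : ℤ) *
          ((3 * ((j + 1 : ℕ) : ℤ) - 2 * ((n + 1 : ℕ) : ℤ)) * δ (j + 1))
        = (n.choose (j + 1) : ℤ) ^ 2 * ((2 * (j + 1)).choose (j + 1) : ℤ) *
            ((3 * ((j + 1 : ℕ) : ℤ) - 2 * n) * δ (j + 1))
          + ((n.choose j : ℤ) ^ 2 * (((j : ℤ) + 1) * ((2 * (j + 1)).choose (j + 1) : ℤ)) * δ (j + 1)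
            - 2 * (n.choose (j + 1) : ℤ) ^ 2 * ((2 * (j + 1)).choose (j + 1) : ℤ) *
              (2 * ((j + 1 : ℕ) : ℤ) + 1) * δ (j + 1)) := by
      intro j _
      have h := point n j
      push_cast
      linear_combination ((2 * (j + 1)).choose (j + 1) : ℤ) * δ (j + 1) * h
    rw [sum_congr rfl h2, sum_add_distrib, sum_sub_distrib]
    push_cast
    simp
    ring

theorem tele2 (β : ℕ → ℤ) (n : ℕ) :
    ∑ k ∈ range n, W (fun j => β j * (2 * (k : ℤ) + 1 - j)) k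
      = ∑ j ∈ range n, ((j : ℤ) + 1) * (n.choose (j + 1) : ℤ) ^ 2 * ((2 * j).choose j : ℤ) * β j := by
  induction n with
  | zero => simp
  | succ n ih =>
    rw [sum_range_succ, ih]
    have h0 : ∑ j ∈ range n, ((j : ℤ) + 1) * (n.choose (j + 1) : ℤ) ^ 2 * ((2 * j).choose j : ℤ) * β j
        = ∑ j ∈ range (n + 1), ((j : ℤ) + 1) * (n.choose (j + 1) : ℤ) ^ 2 * ((2 * j).choose j : ℤ) * β j := by
      rw [sum_range_succ, Nat.choose_eq_zero_of_lt (Nat.lt_succ_self n)]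
      simp
    rw [h0]
    unfold W
    rw [← sum_add_distrib]
    apply sum_congr rfl
    intro j _
    have h := ch_rel n j
    rw [Nat.choose_succ_succ]
    push_cast
    linear_combination (-2 * (n.choose j : ℤ) * ((2 * j).choose j : ℤ) * β j) * h

/-- iterated summability with divisibility -/
def Good (f : ℕ → ℤ) : Prop := ∃ a : ℤ, a ≠ 0 ∧ ∀ i : ℕ, (i : ℤ) ∣ a * ∑ l ∈ range i, f l

lemma Good.lin {f g : ℕ → ℤ} (hf : Good f) (hg : Good g) (u v : ℤ) :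
    Good (fun l => u * f l + v * g l) := by
  obtain ⟨a, ha, h1⟩ := hf
  obtain ⟨b, hb, h2⟩ := hg
  refine ⟨a * b, mul_ne_zero ha hb, fun i => ?_⟩
  rw [sum_add_distrib, ← mul_sum, ← mul_sum]
  have e : a * b * (u * ∑ l ∈ range i, f l + v * ∑ l ∈ range i, g l)
      = (a * ∑ l ∈ range i, f l) * (b * u) + (b * ∑ l ∈ range i, g l) * (a * v) := by ring
  rw [e]
  exact dvd_add (Dvd.dvd.mul_right (h1 i) _) (Dvd.dvd.mul_right (h2 i) _)

lemma good_choose (t : ℕ) : Good (fun l => (l.choose t : ℤ)) := by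
  refine ⟨(t : ℤ) + 1, by positivity, fun i => ?_⟩
  have h : ∑ l ∈ range i, (l.choose t : ℤ) = (i.choose (t + 1) : ℤ) := by
    induction i with
    | zero => simp
    | succ i ih => rw [sum_range_succ, ih, Nat.choose_succ_succ]; push_cast; ring
  rw [h]
  rcases Nat.eq_zero_or_pos i with rfl | hi
  · simp
  · obtain ⟨m, rfl⟩ : ∃ m, i = m + 1 := ⟨i - 1, by omega⟩
    have h2 := Nat.add_one_mul_choose_eq m t
    refine ⟨(m.choose t : ℤ), ?_⟩
    have h3 : ((m : ℤ) + 1) * (m.choose t : ℤ) = ((m + 1).choose (t + 1) : ℤ) * ((t : ℤ) + 1) := by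
      exact_mod_cast h2
    push_cast
    linarith

lemma good_pow (m : ℕ) : ∀ t : ℕ, Good (fun l => (2 * (l : ℤ) + 1) ^ m * (l.choose t : ℤ)) := by
  induction m with
  | zero => intro t; simpa using good_choose t
  | succ m ih =>
    intro t
    have h := (ih (t + 1)).lin (ih t) (2 * ((t : ℤ) + 1)) (2 * (t : ℤ) + 1)
    convert h using 2 with l
    have h2 := ch_rel l t
    rw [pow_succ]
    linear_combination (-2 * (2 * (l : ℤ) + 1) ^ m) * h2

lemma S_eq (r n : ℕ) : S r n = W (fun j => (2 * (j : ℤ) + 1) ^ r) n := rfl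

/-- `n²` divides a fixed multiple of `∑_{k<n} S_k^{(m+1)}`. -/
theorem main (m : ℕ) : ∃ a : ℤ, a ≠ 0 ∧ ∀ n : ℕ, (n : ℤ) ^ 2 ∣ a * ∑ k ∈ range n, S (m + 1) k := by
  have hg := good_pow m 0
  obtain ⟨a, ha, h⟩ := hg
  refine ⟨2 * a, mul_ne_zero two_ne_zero ha, fun n => ?_⟩
  set δ : ℕ → ℤ := fun i => a * ∑ l ∈ range i, (2 * (l : ℤ) + 1) ^ m with hδ
  have hd : ∀ i : ℕ, (i : ℤ) ∣ δ i := by
    intro i
    have := h i
    simpa [hδ] using this
  have ht := tele1 δ n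
  have e1 : ∀ k, W (fun j => (2 * (j : ℤ) + 1) * (δ (j + 1) - δ j)) k = a * S (m + 1) k := by
    intro k
    rw [S_eq]
    unfold W
    rw [mul_sum]
    apply sum_congr rfl
    intro j _
    rw [hδ]
    simp only [sum_range_succ]
    ring
  simp only [e1] at ht
  rw [← mul_sum] at ht
  have e2 : 2 * a * ∑ k ∈ range n, S (m + 1) k = W (fun i => (3 * (i : ℤ) - 2 * n) * δ i) n := by
    rw [← ht]; ring
  rw [e2]
  unfold W
  apply dvd_sum
  intro i _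
  obtain ⟨e, he⟩ := hd i
  beta_reduce
  rw [he]
  rcases Nat.eq_zero_or_pos i with rfl | hi
  · simp
  · obtain ⟨j, rfl⟩ : ∃ j, i = j + 1 := ⟨i - 1, by omega⟩
    rcases Nat.eq_zero_or_pos n with rfl | hn
    · simp
    · obtain ⟨N, rfl⟩ : ∃ N, n = N + 1 := ⟨n - 1, by omega⟩
      have h2 := Nat.add_one_mul_choose_eq N j
      have h3 : ((j : ℤ) + 1) * ((N + 1).choose (j + 1) : ℤ) = ((N : ℤ) + 1) * (N.choose j : ℤ) := by
        have : ((N : ℤ) + 1) * (N.choose j : ℤ) = ((N + 1).choose (j + 1) : ℤ) * ((j : ℤ) + 1) := by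
          exact_mod_cast h2
        linarith
      refine ⟨((2 * (j + 1)).choose (j + 1) : ℤ) * e * (3 * (N.choose j : ℤ) ^ 2 -
        2 * (N.choose j : ℤ) * ((N + 1).choose (j + 1) : ℤ)), ?_⟩
      push_cast
      generalize ((N + 1).choose (j + 1) : ℤ) = x at *
      generalize (N.choose j : ℤ) = y at *
      linear_combination (((2 * (j + 1)).choose (j + 1) : ℤ) * e * (3 * (((j : ℤ) + 1) * x + ((N : ℤ) + 1) * y)
        - 2 * ((N : ℤ) + 1) * x)) * h3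

theorem tele2_dvd (β : ℕ → ℤ) (n : ℕ) :
    (n : ℤ) ^ 2 ∣ ∑ k ∈ range n, W (fun j => β j * (2 * (k : ℤ) + 1 - j)) k := by
  rw [tele2]
  apply dvd_sum
  intro j hj
  have hn : 0 < n := by have := mem_range.mp hj; omega
  obtain ⟨N, rfl⟩ : ∃ N, n = N + 1 := ⟨n - 1, by omega⟩
  have h2 := Nat.add_one_mul_choose_eq N j
  have h3 : ((j : ℤ) + 1) * ((N + 1).choose (j + 1) : ℤ) = ((N : ℤ) + 1) * (N.choose j : ℤ) := by
    have : ((N : ℤ) + 1) * (N.choose j : ℤ) = ((N + 1).choose (j + 1) : ℤ) * ((j : ℤ) + 1) := by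
      exact_mod_cast h2
    linarith
  have h4 := Nat.succ_dvd_centralBinom j
  obtain ⟨c, hc⟩ := h4
  have hc' : ((2 * j).choose j : ℤ) = ((j : ℤ) + 1) * c := by
    rw [Nat.centralBinom] at hc
    exact_mod_cast hc
  refine ⟨(N.choose j : ℤ) ^ 2 * c * β j, ?_⟩
  rw [hc']
  push_cast
  linear_combination ((c : ℤ) * β j * (((j : ℤ) + 1) * ((N + 1).choose (j + 1) : ℤ)
    + ((N : ℤ) + 1) * (N.choose j : ℤ))) * h3

/-- `4 B_r(n)` in terms of the plain sums -/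
theorem B_eq (r n : ℕ) : 4 * B r n
    = 2 * ∑ k ∈ range n, W (fun j => (2 * (j : ℤ) + 1) ^ r * (2 * (k : ℤ) + 1 - j)) k
      + ∑ k ∈ range n, S (r + 1) k - 3 * ∑ k ∈ range n, S r k := by
  unfold B
  rw [mul_sum, mul_sum, mul_sum, ← sum_add_distrib, ← sum_sub_distrib]
  apply sum_congr rfl
  intro k _
  unfold S W
  rw [mul_sum, mul_sum, mul_sum, mul_sum, ← sum_add_distrib, ← sum_sub_distrib]
  apply sum_congr rfl
  intro j _
  rw [pow_succ]
  ring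

/-- **Q1 is true**: for every `r ≥ 1` there are nonzero integers `a_{2r-1}`, `b_r`, independent of
`n`, with `n² ∣ a_{2r-1} A_r(n)` and `n² ∣ b_r B_r(n)` for all `n ≥ 1`. -/
theorem result : ∀ r : ℕ, 1 ≤ r →
    (∃ a : ℤ, a ≠ 0 ∧ ∀ n : ℕ, 1 ≤ n → (n : ℤ) ^ 2 ∣ a * A r n) ∧
    (∃ b : ℤ, b ≠ 0 ∧ ∀ n : ℕ, 1 ≤ n → (n : ℤ) ^ 2 ∣ b * B r n) := by
  intro r hr
  obtain ⟨s, rfl⟩ : ∃ s, r = s + 1 := ⟨r - 1, by omega⟩
  constructor
  · obtain ⟨a, ha, h⟩ := main (2 * s)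
    refine ⟨a, ha, fun n _ => ?_⟩
    have := h n
    unfold A
    rwa [show 2 * (s + 1) - 1 = 2 * s + 1 by omega]
  · obtain ⟨a, ha, h1⟩ := main s
    obtain ⟨b, hb, h2⟩ := main (s + 1)
    refine ⟨4 * (a * b), by positivity, fun n _ => ?_⟩
    have e : 4 * (a * b) * B (s + 1) n
        = a * b * 2 * (∑ k ∈ range n, W (fun j => (2 * (j : ℤ) + 1) ^ (s + 1) * (2 * (k : ℤ) + 1 - j)) k)
          + (b * ∑ k ∈ range n, S (s + 1 + 1) k) * a - (a * ∑ k ∈ range n, S (s + 1) k) * (3 * b) := by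
      have := B_eq (s + 1) n
      linear_combination (a * b) * this
    rw [e]
    exact dvd_sub (dvd_add (Dvd.dvd.mul_left (tele2_dvd _ n) _) (Dvd.dvd.mul_right (h2 n) _))
      (Dvd.dvd.mul_right (h1 n) _)

end Pool.Agent.Results.MP_e2f147_nt.UniformMultipliers
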